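import Pool.Agent.Helper47.RFn.GoalsC

/-!
Project RFn, packet INSA: the frame bundle of a moving frame is an instance of `FB.Base`.
-/

set_option autoImplicit false

open Finset

namespace Pool.Agent.Helper39.RFn.Insa

open Pool.Agent.Helper47.RFn

/-! ### contractions -/

section
variable {n : ℕ} {B : Type} [CommRing B]

theorem sum_dl_left (x : Ix n → B) (a : Ix n) : ∑ b, (if a = b then (1 : B) else 0) * x b = x a := by
  simp

theorem sum_dl_right (x : Ix n → B) (a : Ix n) : ∑ b, x b * (if b = a then (1 : B) else 0) = x a := by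
  simp

/-- `∑_a (∑_b u_ab x_b) (∑_c u_ac y_c) = ∑_b x_b y_b` -/
theorem dot_iso (u : Ix n → Ix n → B) (hu : ∀ b c, ∑ a, u a b * u a c = if b = c then 1 else 0)
    (x y : Ix n → B) : ∑ a, (∑ b, u a b * x b) * (∑ c, u a c * y c) = ∑ b, x b * y b := by
  have h1 : ∀ a, (∑ b, u a b * x b) * (∑ c, u a c * y c) =
      ∑ b, ∑ c, x b * y c * (u a b * u a c) := by
    intro a
    rw [Finset.sum_mul_sum]
    refine Finset.sum_congr rfl fun b _ => Finset.sum_congr rfl fun c _ => ?_
    ring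
  simp only [h1]
  rw [Finset.sum_comm]
  refine Finset.sum_congr rfl fun b _ => ?_
  rw [Finset.sum_comm]
  simp only [← Finset.mul_sum, hu]
  simp

theorem inv_right (A θ : Ix n → Ix n → B)
    (hA : ∀ a b, ∑ i, A a i * θ i b = if a = b then 1 else 0) (v : Ix n → B) (c : Ix n) :
    ∑ j, (∑ b, v b * A b j) * θ j c = v c := by
  have h1 : v c = ∑ b, v b * ∑ j, A b j * θ j c := by
    simp only [hA, mul_ite, mul_one, mul_zero, Finset.sum_ite_eq', Finset.mem_univ, if_true]
  rw [h1]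
  simp only [Finset.mul_sum, Finset.sum_mul]
  rw [Finset.sum_comm]
  refine Finset.sum_congr rfl fun i _ => Finset.sum_congr rfl fun b _ => ?_
  ring

end

/-! ### the frame -/

section
variable {n : ℕ} {𝒜 : Type} [CommRing 𝒜] [Algebra ℝ 𝒜] {e : Ix n → Derivation ℝ 𝒜 𝒜}
  {n0 : Ix n → 𝒜} {A θ : Ix n → Ix n → 𝒜}

theorem Fd_mul (a : Ix n) (f g : 𝒜) :
    FR.Fd e A a (f * g) = f * FR.Fd e A a g + g * FR.Fd e A a f := by
  unfold FR.Fd
  simp only [Derivation.leibniz, smul_eq_mul, Finset.mul_sum, ← Finset.sum_add_distrib]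
  refine Finset.sum_congr rfl fun i _ => ?_
  ring

theorem Fd_sum {ι : Type} (s : Finset ι) (a : Ix n) (f : ι → 𝒜) :
    FR.Fd e A a (∑ i ∈ s, f i) = ∑ i ∈ s, FR.Fd e A a (f i) := by
  unfold FR.Fd
  simp only [map_sum, Finset.mul_sum]
  rw [Finset.sum_comm]

theorem nf_theta (h : FrameHyp e n0 A θ) (c : Ix n) : ∑ j, n0 j * θ j c = FR.nf n0 A c := by
  unfold FR.nf
  rw [h.nA]
  exact Finset.sum_congr rfl fun i _ => mul_comm _ _

theorem nf_A (h : FrameHyp e n0 A θ) (j : Ix n) : ∑ a, FR.nf n0 A a * A a j = n0 j := by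
  have h1 : ∀ a, FR.nf n0 A a = ∑ i, n0 i * θ i a := fun a => (nf_theta h a).symm
  simp only [h1]
  exact inv_right θ A h.tA n0 j

theorem Fd_n0 (h : FrameHyp e n0 A θ) (a j : Ix n) :
    FR.Fd e A a (n0 j) = A a j - FR.nf n0 A a * n0 j := by
  unfold FR.Fd FR.nf
  simp only [h.en, mul_sub, Finset.sum_sub_distrib, Finset.sum_mul]
  congr 1
  · simp
  · refine Finset.sum_congr rfl fun i _ => ?_
    ring

theorem nf_C (h : FrameHyp e n0 A θ) (h6 : ∑ a, FR.nf n0 A a ^ 2 = 1)
    (h7 : ∀ f, ∑ a, FR.nf n0 A a * FR.Fd e A a f = 0) (c d : Ix n) :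
    ∑ a, FR.nf n0 A a * FR.C e n0 A θ a c d = FR.Fd e A c (FR.nf n0 A d) := by
  have h1 : ∀ j, ∑ a, FR.nf n0 A a * FR.Fd e A c (A a j) =
      A c j - FR.nf n0 A c * n0 j - ∑ a, FR.Fd e A c (FR.nf n0 A a) * A a j := by
    intro j
    have h2 := Fd_sum (e := e) (A := A) Finset.univ c fun a => FR.nf n0 A a * A a j
    rw [nf_A h j, Fd_n0 h] at h2
    rw [h2]
    simp only [Fd_mul, Finset.sum_add_distrib]
    have h3 : ∑ a, A a j * FR.Fd e A c (FR.nf n0 A a) =
        ∑ a, FR.Fd e A c (FR.nf n0 A a) * A a j :=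
      Finset.sum_congr rfl fun a _ => mul_comm _ _
    rw [h3]
    ring
  have h4 : ∑ a, FR.nf n0 A a * FR.C e n0 A θ a c d =
      ∑ j, (∑ a, FR.nf n0 A a * FR.Fd e A a (A c j)) * θ j d -
      ∑ j, (∑ a, FR.nf n0 A a * FR.Fd e A c (A a j)) * θ j d +
      ((∑ a, FR.nf n0 A a ^ 2) * (if c = d then 1 else 0) - FR.nf n0 A c * FR.nf n0 A d) := by
    unfold FR.C
    have h5 : ∀ a, FR.nf n0 A a * (∑ j, (FR.Fd e A a (A c j) - FR.Fd e A c (A a j)) * θ j d
        + (FR.nf n0 A a * (if c = d then 1 else 0) - FR.nf n0 A c * (if a = d then 1 else 0))) =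
        (∑ j, FR.nf n0 A a * FR.Fd e A a (A c j) * θ j d) -
        (∑ j, FR.nf n0 A a * FR.Fd e A c (A a j) * θ j d) +
        (FR.nf n0 A a ^ 2 * (if c = d then 1 else 0) -
          FR.nf n0 A c * (FR.nf n0 A a * (if a = d then 1 else 0))) := by
      intro a
      rw [mul_add, Finset.mul_sum, ← Finset.sum_sub_distrib]
      congr 1
      · refine Finset.sum_congr rfl fun j _ => ?_
        ring
      · ring
    simp only [h5, Finset.sum_add_distrib, Finset.sum_sub_distrib]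
    congr 1
    · congr 1
      · rw [Finset.sum_comm]
        exact Finset.sum_congr rfl fun j _ => (Finset.sum_mul _ _ _).symm
      · rw [Finset.sum_comm]
        exact Finset.sum_congr rfl fun j _ => (Finset.sum_mul _ _ _).symm
    · rw [← Finset.sum_mul, ← Finset.mul_sum, sum_dl_right]
  have h8 : ∑ j, (∑ a, FR.nf n0 A a * FR.Fd e A c (A a j)) * θ j d =
      (if c = d then 1 else 0) - FR.nf n0 A c * FR.nf n0 A d - FR.Fd e A c (FR.nf n0 A d) := by
    simp only [h1, sub_mul, Finset.sum_sub_distrib]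
    rw [h.At]
    congr 1
    · congr 1
      rw [← nf_theta h d, Finset.mul_sum]
      exact Finset.sum_congr rfl fun j _ => mul_assoc _ _ _
    · exact inv_right A θ h.At (fun a => FR.Fd e A c (FR.nf n0 A a)) d
  rw [h4, h8, h6]
  simp only [h7, zero_mul, Finset.sum_const_zero]
  ring

theorem nf_Gam (h : FrameHyp e n0 A θ) (hFRA : Goal_FRA) (c d : Ix n) :
    ∑ a, FR.nf n0 A a * FR.Gam e n0 A θ a c d = 0 := by
  obtain ⟨-, -, h3, h4, -, h6, h7, h8, -, -⟩ := hFRA n 𝒜 e n0 A θ h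
  have h9 := nf_C h h6 h7 c d
  simp only [h4, mul_sub, Finset.sum_sub_distrib] at h9
  have h10 : ∑ a, FR.nf n0 A a * FR.Gam e n0 A θ c a d = - FR.Fd e A c (FR.nf n0 A d) := by
    rw [h8, ← Finset.sum_neg_distrib]
    refine Finset.sum_congr rfl fun a _ => ?_
    rw [h3 c a d]
    ring
  rw [h10] at h9
  linear_combination h9

end

/-! ### the horizontal fields -/

section
variable {n : ℕ} {T : ℝ} {P : BA n T}

theorem dsum_apply {ι B : Type} [CommRing B] [Algebra ℝ B] (s : Finset ι)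
    (D : ι → Derivation ℝ B B) (f : B) : (∑ i ∈ s, D i) f = ∑ i ∈ s, D i f := by
  classical
  induction s using Finset.induction_on with
  | empty => simp
  | insert a s ha ih => rw [Finset.sum_insert ha, Finset.sum_insert ha, Derivation.add_apply, ih]

/-- the connection -/
noncomputable def Gm (P : BA n T) (A θ : Ix n → Ix n → P.B) (b c d : Ix n) : P.B :=
  FR.Gam P.e P.n0 A θ b c d

/-- the radial vector -/
noncomputable def nv (P : BA n T) (A : Ix n → Ix n → P.B) (b : Ix n) : P.B := FR.nf P.n0 A b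

/-- `L_b f` -/
noncomputable def Lo (P : BA n T) (A θ : Ix n → Ix n → P.B) (b : Ix n) (f : P.B) : P.B :=
  ∑ i, A b i * P.e i f + (1 / 2 : ℝ) • ∑ c, ∑ d, Gm P A θ b c d * P.U c d f

/-- horizontal fields as derivations of `P.B` -/
noncomputable def Hh (P : BA n T) (A θ : Ix n → Ix n → P.B) (a : Ix n) :
    Derivation ℝ P.B P.B :=
  ∑ b, P.u a b • (∑ i, A b i • P.e i
    + (1 / 2 : ℝ) • ∑ c, ∑ d, FR.Gam P.e P.n0 A θ b c d • P.U c d)

/-- `S` with values in `P.B` -/
noncomputable def Sm (P : BA n T) (S0 : Ix n → Ix n → P.B) (a b : Ix n) : P.B :=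
  ∑ c, ∑ d, P.u a c * P.u b d * S0 c d

/-- `nu` with values in `P.B` -/
noncomputable def nb (P : BA n T) (A : Ix n → Ix n → P.B) (a : Ix n) : P.B :=
  ∑ b, P.u a b * nv P A b

theorem H_apply (A θ : Ix n → Ix n → P.B) (a : Ix n) (f : P.B) :
    Hh P A θ a f = ∑ b, P.u a b * Lo P A θ b f := by
  unfold Hh
  rw [dsum_apply]
  refine Finset.sum_congr rfl fun b _ => ?_
  rw [Derivation.smul_apply, Derivation.add_apply, dsum_apply, Derivation.smul_apply, dsum_apply]
  simp only [dsum_apply, Derivation.smul_apply, smul_eq_mul]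
  rfl

theorem e_apply (i : Ix n) (f : P.B) : P.e i f = ∑ j, P.n0 j * P.L j i f := by
  unfold BA.e
  rw [dsum_apply]
  rfl

/-- coefficients of `L_ij` in `H_a` -/
noncomputable def al (P : BA n T) (A : Ix n → Ix n → P.B) (a j i : Ix n) : P.B :=
  (∑ b, P.u a b * A b i) * P.n0 j

/-- coefficients of `U_cd` in `H_a` -/
noncomputable def ga (P : BA n T) (A θ : Ix n → Ix n → P.B) (a c d : Ix n) : P.B :=
  (1 / 2 : ℝ) • ∑ b, P.u a b * Gm P A θ b c d

theorem H_apply' (A θ : Ix n → Ix n → P.B) (a : Ix n) (f : P.B) :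
    Hh P A θ a f = ∑ i, ∑ j, (al P A a i j * P.L i j f + ga P A θ a i j * P.U i j f) := by
  rw [H_apply]
  unfold Lo al ga
  simp only [mul_add, Finset.sum_add_distrib]
  congr 1
  · simp only [e_apply, Finset.mul_sum, Finset.sum_mul]
    rw [Finset.sum_comm]
    have h1 : ∀ i : Ix n, ∑ b, ∑ j, P.u a b * (A b i * (P.n0 j * P.L j i f)) =
        ∑ j, ∑ b, P.u a b * (A b i * (P.n0 j * P.L j i f)) := fun i => Finset.sum_comm
    simp only [h1]
    rw [Finset.sum_comm]
    refine Finset.sum_congr rfl fun j _ => Finset.sum_congr rfl fun i _ =>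
      Finset.sum_congr rfl fun b _ => ?_
    ring
  · have h2 : ∀ b : Ix n, P.u a b * (1 / 2 : ℝ) • ∑ c, ∑ d, Gm P A θ b c d * P.U c d f =
        ∑ c, ∑ d, (1 / 2 : ℝ) • (P.u a b * Gm P A θ b c d * P.U c d f) := by
      intro b
      rw [mul_smul_comm, Finset.mul_sum, Finset.smul_sum]
      refine Finset.sum_congr rfl fun c _ => ?_
      rw [Finset.mul_sum, Finset.smul_sum]
      refine Finset.sum_congr rfl fun d _ => ?_
      rw [mul_assoc]
    simp only [h2]
    rw [Finset.sum_comm]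
    refine Finset.sum_congr rfl fun c _ => ?_
    rw [Finset.sum_comm]
    refine Finset.sum_congr rfl fun d _ => ?_
    rw [smul_mul_assoc, Finset.sum_mul, Finset.smul_sum]

theorem ev_lin (z : P.Z) (t : TI T) (δ : Derivation ℝ P.B P.B) (α γ e u : Ix n → Ix n → P.B)
    (he : ∀ i j, P.ev z t (e i j) = 0) (hu : ∀ i j, P.ev z t (u i j) = 0) :
    P.ev z t (δ (∑ i, ∑ j, (α i j * e i j + γ i j * u i j))) =
      P.ev z t (δ (∑ i, ∑ j, ((P.ev z t (α i j)) • e i j + (P.ev z t (γ i j)) • u i j))) := by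
  simp only [map_add, map_sum, Derivation.leibniz, Derivation.map_smul, smul_eq_mul, map_mul,
    map_smul, he, hu, zero_mul, add_zero]

theorem ev_H (A θ : Ix n → Ix n → P.B) (z : P.Z) (t : TI T) (a : Ix n) (f : P.B) :
    P.ev z t (Hh P A θ a f) = ∑ i, ∑ j, (P.ev z t (al P A a i j) * P.ev z t (P.L i j f) +
      P.ev z t (ga P A θ a i j) * P.ev z t (P.U i j f)) := by
  rw [H_apply']
  simp only [map_add, map_sum, map_mul]

theorem ev_cf (z : P.Z) (t : TI T) (c d : Ix n → Ix n → ℝ) (f : P.B) :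
    P.ev z t (P.cf c d f) = ∑ i, ∑ j, (c i j * P.ev z t (P.L i j f) +
      d i j * P.ev z t (P.U i j f)) := by
  unfold BA.cf
  simp only [map_add, map_sum, map_smul, smul_eq_mul]

theorem min1 (hP : P.Ax) (A θ : Ix n → Ix n → P.B) (f : P.B) (z : P.Z) (t : TI T)
    (hm : ∀ z', P.ev z t f ≤ P.ev z' t f) (a : Ix n) :
    P.ev z t (Hh P A θ a f) = 0 ∧
      0 ≤ P.ev z t (Hh P A θ a (Hh P A θ a f)) := by
  have hE : ∀ i j, P.ev z t (P.L i j f) = 0 := by
    intro i j
    have h := (hP.min f z t hm (fun i' j' => if i' = i ∧ j' = j then 1 else 0) 0).1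
    rw [ev_cf] at h
    have h2 : ∑ i', ∑ j', ((if i' = i ∧ j' = j then (1 : ℝ) else 0) * P.ev z t (P.L i' j' f) +
        (0 : Ix n → Ix n → ℝ) i' j' * P.ev z t (P.U i' j' f)) = P.ev z t (P.L i j f) := by
      rw [Finset.sum_eq_single i, Finset.sum_eq_single j]
      · simp
      · intro b _ hb
        simp [hb]
      · simp
      · intro b _ hb
        simp [hb]
      · simp
    rw [← h2]
    exact h
  have hU : ∀ i j, P.ev z t (P.U i j f) = 0 := by
    intro i j
    have h := (hP.min f z t hm 0 (fun i' j' => if i' = i ∧ j' = j then 1 else 0)).1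
    rw [ev_cf] at h
    have h2 : ∑ i', ∑ j', ((0 : Ix n → Ix n → ℝ) i' j' * P.ev z t (P.L i' j' f) +
        (if i' = i ∧ j' = j then (1 : ℝ) else 0) * P.ev z t (P.U i' j' f)) =
        P.ev z t (P.U i j f) := by
      rw [Finset.sum_eq_single i, Finset.sum_eq_single j]
      · simp
      · intro b _ hb
        simp [hb]
      · simp
      · intro b _ hb
        simp [hb]
      · simp
    rw [← h2]
    exact h
  constructor
  · rw [ev_H]
    simp only [hE, hU, mul_zero, Finset.sum_const_zero, add_zero]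
  · rw [ev_H]
    have h1 : ∀ δ : Derivation ℝ P.B P.B, P.ev z t (δ (Hh P A θ a f)) =
        P.ev z t (δ (P.cf (fun i j => P.ev z t (al P A a i j))
          (fun i j => P.ev z t (ga P A θ a i j)) f)) := by
      intro δ
      have h := ev_lin z t δ (al P A a) (ga P A θ a) (fun i j => P.L i j f)
        (fun i j => P.U i j f) hE hU
      rw [← H_apply' A θ] at h
      exact h
    simp only [h1]
    rw [← ev_cf z t (fun i j => P.ev z t (al P A a i j)) (fun i j => P.ev z t (ga P A θ a i j))]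
    exact (hP.min f z t hm _ _).2

theorem chainH (hP : P.Ax) (A θ : Ix n → Ix n → P.B) (φ : ℝ → ℝ) (O : Set ℝ)
    (hO : IsOpen O) (hφ : ContDiffOn ℝ ((⊤ : ℕ∞) : WithTop ℕ∞) φ O) (f g : P.B)
    (hf : ∀ z t, P.ev z t f ∈ O) (hg : ∀ z t, P.ev z t g = φ (P.ev z t f)) (z : P.Z) (t : TI T) :
    (∀ a, P.ev z t (Hh P A θ a g) =
        deriv φ (P.ev z t f) * P.ev z t (Hh P A θ a f))
      ∧ (∀ k l, P.ev z t (P.V k l g) = deriv φ (P.ev z t f) * P.ev z t (P.V k l f))
      ∧ P.ev z t (P.Dt g) = deriv φ (P.ev z t f) * P.ev z t (P.Dt f) := by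
  obtain ⟨h1, h2, h3, h4⟩ := hP.chain φ O hO hφ f g hf hg z t
  refine ⟨fun a => ?_, h3, h4⟩
  rw [ev_H, ev_H]
  simp only [h1, h2, Finset.mul_sum]
  refine Finset.sum_congr rfl fun i _ => Finset.sum_congr rfl fun j _ => ?_
  ring

/-! ### commutators -/

theorem UeV' (hP : P.Ax) (x : Ix n → Ix n → P.B) (f : P.B) :
    ∑ p, ∑ q, x p q * P.U p q f =
      ∑ k, ∑ l, (∑ p, ∑ q, x p q * (P.u k p * P.u l q)) * P.V k l f := by
  have h1 : ∀ p q, x p q * P.U p q f = ∑ k, ∑ l, x p q * (P.u k p * P.u l q) * P.V k l f := by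
    intro p q
    rw [hP.UeV, Finset.mul_sum]
    refine Finset.sum_congr rfl fun k _ => ?_
    rw [Finset.mul_sum]
    refine Finset.sum_congr rfl fun l _ => ?_
    ring
  simp only [h1, Finset.sum_mul]
  have h2 : ∀ p : Ix n, ∑ q, ∑ k, ∑ l, x p q * (P.u k p * P.u l q) * P.V k l f =
      ∑ k, ∑ l, ∑ q, x p q * (P.u k p * P.u l q) * P.V k l f := by
    intro p
    rw [Finset.sum_comm]
    exact Finset.sum_congr rfl fun k _ => Finset.sum_comm
  simp only [h2]
  rw [Finset.sum_comm]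
  exact Finset.sum_congr rfl fun k _ => Finset.sum_comm

theorem Lo_mul (A θ : Ix n → Ix n → P.B) (b : Ix n) (f g : P.B) :
    Lo P A θ b (f * g) = f * Lo P A θ b g + g * Lo P A θ b f := by
  unfold Lo
  simp only [Derivation.leibniz, smul_eq_mul, mul_add, Finset.sum_add_distrib, smul_add]
  have h1 : ∀ x y : P.B, ∑ i, A b i * (x * P.e i y) = x * ∑ i, A b i * P.e i y := by
    intro x y
    rw [Finset.mul_sum]
    exact Finset.sum_congr rfl fun i _ => by ring
  have h2 : ∀ x y : P.B, (1 / 2 : ℝ) • ∑ c, ∑ d, Gm P A θ b c d * (x * P.U c d y) =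
      x * (1 / 2 : ℝ) • ∑ c, ∑ d, Gm P A θ b c d * P.U c d y := by
    intro x y
    rw [mul_smul_comm, Finset.mul_sum]
    congr 1
    refine Finset.sum_congr rfl fun c _ => ?_
    rw [Finset.mul_sum]
    exact Finset.sum_congr rfl fun d _ => by ring
  rw [h1, h1, h2, h2]
  ring

theorem Lo_sum {ι : Type} (s : Finset ι) (A θ : Ix n → Ix n → P.B) (b : Ix n) (f : ι → P.B) :
    Lo P A θ b (∑ i ∈ s, f i) = ∑ i ∈ s, Lo P A θ b (f i) := by
  unfold Lo
  simp only [map_sum, Finset.mul_sum, Finset.sum_add_distrib, Finset.smul_sum]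
  congr 1
  · rw [Finset.sum_comm]
  · symm
    rw [Finset.sum_comm]
    refine Finset.sum_congr rfl fun c _ => ?_
    rw [Finset.sum_comm]

theorem VL (hP : P.Ax) (hE0 : Goal_E0) {A θ : Ix n → Ix n → P.B} (hA : ∀ a i, P.XT (A a i))
    (hG : ∀ a b c, P.XT (Gm P A θ a b c)) (k l b : Ix n) (f : P.B) :
    P.V k l (Lo P A θ b f) = Lo P A θ b (P.V k l f) := by
  obtain ⟨-, -, -, -, hV, -⟩ := hE0 n T P hP
  unfold Lo
  simp only [map_add, map_sum, Derivation.leibniz, Derivation.map_smul, (hA _ _).2, (hG _ _ _).2,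
    smul_eq_mul, mul_zero, add_zero, ← hV, ← hP.UV]

theorem VH (hP : P.Ax) (hE0 : Goal_E0) {A θ : Ix n → Ix n → P.B} (hA : ∀ a i, P.XT (A a i))
    (hG : ∀ a b c, P.XT (Gm P A θ a b c)) (k l a : Ix n) (f : P.B) :
    P.V k l (Hh P A θ a f) - Hh P A θ a (P.V k l f) =
      P.dl l a * Hh P A θ k f - P.dl k a * Hh P A θ l f := by
  simp only [H_apply, map_sum, Derivation.leibniz, VL hP hE0 hA hG, hP.Vu, smul_eq_mul,
    Finset.mul_sum, ← Finset.sum_sub_distrib]
  refine Finset.sum_congr rfl fun b _ => ?_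
  ring

theorem dot (hP : P.Ax) (x y : Ix n → P.B) :
    ∑ a, (∑ b, P.u a b * x b) * (∑ c, P.u a c * y c) = ∑ b, x b * y b :=
  dot_iso P.u (fun b c => hP.utu b c) x y

theorem S_eq (S0 : Ix n → Ix n → P.B) (a b : Ix n) :
    Sm P S0 a b = ∑ d, P.u b d * ∑ c, P.u a c * S0 c d := by
  unfold Sm
  rw [Finset.sum_comm]
  refine Finset.sum_congr rfl fun d _ => ?_
  rw [Finset.mul_sum]
  exact Finset.sum_congr rfl fun c _ => by ring

theorem S_dot (hP : P.Ax) (S0 : Ix n → Ix n → P.B) (a : Ix n) (y : Ix n → P.B) :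
    ∑ b, Sm P S0 a b * (∑ c, P.u b c * y c) = ∑ c, P.u a c * ∑ d, S0 c d * y d := by
  simp only [S_eq]
  rw [dot hP]
  simp only [Finset.sum_mul, Finset.mul_sum]
  rw [Finset.sum_comm]
  exact Finset.sum_congr rfl fun c _ => Finset.sum_congr rfl fun d _ => by ring

/-- the vertical part of `[D, L_b]` -/
noncomputable def Gd (P : BA n T) (A θ S0 : Ix n → Ix n → P.B) (b p q : Ix n) : P.B :=
  P.Dt (Gm P A θ b p q) - ∑ c, S0 b c * Gm P A θ c p q

theorem DL (hP : P.Ax) (hE0 : Goal_E0) {A θ S0 : Ix n → Ix n → P.B} (hF : P.FH A θ S0)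
    (b : Ix n) (f : P.B) : P.Dt (Lo P A θ b f) = Lo P A θ b (P.Dt f) +
      ∑ c, S0 b c * Lo P A θ c f + (1 / 2 : ℝ) • ∑ p, ∑ q, Gd P A θ S0 b p q * P.U p q f := by
  obtain ⟨-, -, -, -, -, hD, -⟩ := hE0 n T P hP
  have h1 : ∑ c, S0 b c * Lo P A θ c f = ∑ i, (∑ c, S0 b c * A c i) * P.e i f +
      (1 / 2 : ℝ) • ∑ p, ∑ q, (∑ c, S0 b c * Gm P A θ c p q) * P.U p q f := by
    unfold Lo
    simp only [mul_add, Finset.sum_add_distrib]
    congr 1
    · simp only [Finset.mul_sum, Finset.sum_mul]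
      rw [Finset.sum_comm]
      exact Finset.sum_congr rfl fun i _ => Finset.sum_congr rfl fun c _ => by ring
    · simp only [mul_smul_comm, ← Finset.smul_sum]
      congr 1
      simp only [Finset.mul_sum, Finset.sum_mul]
      rw [Finset.sum_comm]
      refine Finset.sum_congr rfl fun p _ => ?_
      rw [Finset.sum_comm]
      exact Finset.sum_congr rfl fun q _ => Finset.sum_congr rfl fun c _ => by ring
  have h2 : P.Dt (Lo P A θ b f) = Lo P A θ b (P.Dt f) + (∑ i, (∑ c, S0 b c * A c i) * P.e i f +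
      (1 / 2 : ℝ) • ∑ p, ∑ q, P.Dt (Gm P A θ b p q) * P.U p q f) := by
    unfold Lo
    simp only [map_add, map_sum, Derivation.leibniz, Derivation.map_smul, smul_eq_mul, hD, hP.DU,
      hF.DA, Finset.sum_add_distrib, smul_add]
    have e1 : ∑ i, P.e i f * ∑ c, S0 b c * A c i = ∑ i, (∑ c, S0 b c * A c i) * P.e i f :=
      Finset.sum_congr rfl fun i _ => mul_comm _ _
    have e2 : ∑ p, ∑ q, P.U p q f * P.Dt (Gm P A θ b p q) =
        ∑ p, ∑ q, P.Dt (Gm P A θ b p q) * P.U p q f :=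
      Finset.sum_congr rfl fun p _ => Finset.sum_congr rfl fun q _ => mul_comm _ _
    rw [e1, e2]
    abel
  have h3 : ∑ p, ∑ q, Gd P A θ S0 b p q * P.U p q f =
      ∑ p, ∑ q, P.Dt (Gm P A θ b p q) * P.U p q f -
      ∑ p, ∑ q, (∑ c, S0 b c * Gm P A θ c p q) * P.U p q f := by
    unfold Gd
    simp only [sub_mul, Finset.sum_sub_distrib]
  rw [h1, h2, h3, smul_sub]
  abel

theorem DH (hP : P.Ax) (hE0 : Goal_E0) {A θ S0 : Ix n → Ix n → P.B} (hF : P.FH A θ S0)
    (a : Ix n) (f : P.B) : P.Dt (Hh P A θ a f) = Hh P A θ a (P.Dt f)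
      + ∑ b, Sm P S0 a b * Hh P A θ b f
      + (1 / 2 : ℝ) • ∑ k, ∑ l, (∑ p, ∑ q, (∑ b, P.u a b * Gd P A θ S0 b p q) *
          (P.u k p * P.u l q)) * P.V k l f := by
  rw [← UeV' hP]
  simp only [H_apply]
  rw [S_dot hP]
  simp only [map_sum, Derivation.leibniz, DL hP hE0 hF, hP.Du, smul_eq_mul, mul_zero, add_zero,
    mul_add, Finset.sum_add_distrib]
  congr 1
  simp only [mul_smul_comm, ← Finset.smul_sum]
  congr 1
  simp only [Finset.mul_sum, Finset.sum_mul]
  rw [Finset.sum_comm]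
  refine Finset.sum_congr rfl fun p _ => ?_
  rw [Finset.sum_comm]
  exact Finset.sum_congr rfl fun q _ => Finset.sum_congr rfl fun c _ => by ring

theorem Ssymm {A θ S0 : Ix n → Ix n → P.B} (hF : P.FH A θ S0) (i j : Ix n) :
    Sm P S0 i j = Sm P S0 j i := by
  unfold Sm
  rw [Finset.sum_comm]
  refine Finset.sum_congr rfl fun c _ => Finset.sum_congr rfl fun e _ => ?_
  rw [hF.Ssy e c]
  ring

/-! ### the radial vector -/

theorem nuH (hP : P.Ax) (hE0 : Goal_E0) (hFRA : Goal_FRA) {A θ S0 : Ix n → Ix n → P.B}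
    (hF : P.FH A θ S0) (f : P.B) : ∑ a, nb P A a * Hh P A θ a f = 0 := by
  obtain ⟨-, -, -, -, -, -, -, -, hfr⟩ := hE0 n T P hP
  have hh := hfr A θ S0 hF
  obtain ⟨-, -, -, -, -, -, h7, -, -, -⟩ := hFRA n P.B P.e P.n0 A θ hh
  simp only [H_apply, nb]
  rw [dot hP]
  unfold Lo
  simp only [mul_add, Finset.sum_add_distrib]
  have h1 : ∑ b, nv P A b * ∑ i, A b i * P.e i f = 0 := h7 f
  have h2 : ∑ b, nv P A b * (1 / 2 : ℝ) • ∑ c, ∑ d, Gm P A θ b c d * P.U c d f = 0 := by
    simp only [mul_smul_comm, ← Finset.smul_sum]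
    have h3 : ∑ b, nv P A b * ∑ c, ∑ d, Gm P A θ b c d * P.U c d f =
        ∑ c, ∑ d, (∑ b, nv P A b * Gm P A θ b c d) * P.U c d f := by
      simp only [Finset.mul_sum, Finset.sum_mul]
      rw [Finset.sum_comm]
      refine Finset.sum_congr rfl fun c _ => ?_
      rw [Finset.sum_comm]
      exact Finset.sum_congr rfl fun d _ => Finset.sum_congr rfl fun b _ => by ring
    have h4 : ∀ c d, ∑ b, nv P A b * Gm P A θ b c d = 0 := fun c d => nf_Gam hh hFRA c d
    rw [h3]
    simp only [h4, zero_mul, Finset.sum_const_zero, smul_zero]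
  rw [h1, h2, add_zero]

theorem Lo_XT (A θ : Ix n → Ix n → P.B) (b : Ix n) {f : P.B} (hf : P.XT f) :
    Lo P A θ b f = ∑ i, A b i * P.e i f := by
  unfold Lo
  simp only [hf.1, mul_zero, Finset.sum_const_zero, smul_zero, add_zero]

theorem Lo_u (hP : P.Ax) (hE0 : Goal_E0) {A θ : Ix n → Ix n → P.B}
    (hG : ∀ a b c, Gm P A θ a b c = - Gm P A θ a c b) (c b d : Ix n) :
    Lo P A θ c (P.u b d) = ∑ q, Gm P A θ c d q * P.u b q := by
  obtain ⟨-, -, -, -, -, -, hu, -⟩ := hE0 n T P hP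
  unfold Lo
  simp only [hu, mul_zero, Finset.sum_const_zero, zero_add, hP.Uu, mul_sub,
    Finset.sum_sub_distrib]
  have h1 : ∑ p, ∑ q, Gm P A θ c p q * (P.dl p d * P.u b q) = ∑ q, Gm P A θ c d q * P.u b q := by
    rw [Finset.sum_comm]
    refine Finset.sum_congr rfl fun q _ => ?_
    unfold BA.dl
    simp only [ite_mul, one_mul, zero_mul, mul_ite, mul_zero]
    simp
  have h2 : ∑ p, ∑ q, Gm P A θ c p q * (P.dl q d * P.u b p) =
      - ∑ q, Gm P A θ c d q * P.u b q := by
    rw [← Finset.sum_neg_distrib]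
    refine Finset.sum_congr rfl fun p _ => ?_
    unfold BA.dl
    simp only [ite_mul, one_mul, zero_mul, mul_ite, mul_zero]
    simp only [Finset.sum_ite_eq', Finset.mem_univ, if_true]
    rw [hG c p d]
    ring
  rw [h1, h2, sub_neg_eq_add, ← two_smul ℝ, smul_smul]
  norm_num

theorem Hnu (hP : P.Ax) (hE0 : Goal_E0) (hFRA : Goal_FRA) {A θ S0 : Ix n → Ix n → P.B}
    (hF : P.FH A θ S0) (hN : ∀ a, P.XT (nv P A a)) (a b : Ix n) : Hh P A θ a (nb P A b) = 0 := by
  have hE := hE0 n T P hP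
  obtain ⟨-, -, -, -, -, -, -, -, hfr⟩ := hE
  have hh := hfr A θ S0 hF
  obtain ⟨-, -, h3, -, -, -, -, h8, -, -⟩ := hFRA n P.B P.e P.n0 A θ hh
  have hG : ∀ a b c, Gm P A θ a b c = - Gm P A θ a c b := fun a b c => h3 a b c
  rw [H_apply]
  refine Finset.sum_eq_zero fun c _ => ?_
  have h1 : Lo P A θ c (nb P A b) = 0 := by
    unfold nb
    rw [Lo_sum]
    have h2 : ∀ d, Lo P A θ c (P.u b d * nv P A d) =
        ∑ q, Gm P A θ c d q * (P.u b d * nv P A q) + ∑ q, Gm P A θ c d q * (P.u b q * nv P A d) := by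
      intro d
      rw [Lo_mul, Lo_u hP hE0 hG, Lo_XT A θ c (hN d)]
      have h4 : ∑ i, A c i * P.e i (nv P A d) = ∑ q, Gm P A θ c d q * nv P A q := h8 c d
      rw [h4, Finset.mul_sum, Finset.mul_sum]
      congr 1 <;> exact Finset.sum_congr rfl fun q _ => by ring
    simp only [h2, Finset.sum_add_distrib]
    have h5 : ∑ d, ∑ q, Gm P A θ c d q * (P.u b d * nv P A q) =
        - ∑ d, ∑ q, Gm P A θ c d q * (P.u b q * nv P A d) := by
      rw [Finset.sum_comm, ← Finset.sum_neg_distrib]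
      refine Finset.sum_congr rfl fun q _ => ?_
      rw [← Finset.sum_neg_distrib]
      refine Finset.sum_congr rfl fun d _ => ?_
      rw [hG c d q]
      ring
    rw [h5, neg_add_cancel]
  rw [h1, mul_zero]

theorem Vnu (hP : P.Ax) {A : Ix n → Ix n → P.B} (hN : ∀ a, P.XT (nv P A a)) (k l a : Ix n) :
    P.V k l (nb P A a) = P.dl l a * nb P A k - P.dl k a * nb P A l := by
  unfold nb
  simp only [map_sum, Derivation.leibniz, (hN _).2, hP.Vu, smul_eq_mul, mul_zero, zero_add,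
    Finset.mul_sum, ← Finset.sum_sub_distrib]
  exact Finset.sum_congr rfl fun b _ => by ring

theorem Dnv (hP : P.Ax) {A θ S0 : Ix n → Ix n → P.B} (hF : P.FH A θ S0) (b : Ix n) :
    P.Dt (nv P A b) = 0 := by
  have h1 : P.Dt (nv P A b) = ∑ c, S0 b c * nv P A c := by
    unfold nv FR.nf
    simp only [map_sum, Derivation.leibniz, hP.Dn, hF.DA, smul_eq_mul, mul_zero, zero_add,
      Finset.mul_sum]
    rw [Finset.sum_comm]
    exact Finset.sum_congr rfl fun c _ => Finset.sum_congr rfl fun i _ => by ring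
  rw [h1]
  exact hF.nS b

theorem Dnu (hP : P.Ax) {A θ S0 : Ix n → Ix n → P.B} (hF : P.FH A θ S0) (a : Ix n) :
    P.Dt (nb P A a) = 0 := by
  unfold nb
  simp only [map_sum, Derivation.leibniz, Dnv hP hF, hP.Du, smul_eq_mul, mul_zero, add_zero,
    Finset.sum_const_zero]

theorem nuS (hP : P.Ax) {A θ S0 : Ix n → Ix n → P.B} (hF : P.FH A θ S0) (a : Ix n) :
    ∑ b, Sm P S0 a b * nb P A b = 0 := by
  unfold nb
  rw [S_dot hP]
  have h : ∀ c, ∑ d, S0 c d * nv P A d = 0 := fun c => hF.nS c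
  simp only [h, mul_zero, Finset.sum_const_zero]

theorem nunu (hP : P.Ax) (hE0 : Goal_E0) (hFRA : Goal_FRA) {A θ S0 : Ix n → Ix n → P.B}
    (hF : P.FH A θ S0) : ∑ a, nb P A a ^ 2 = 1 := by
  obtain ⟨-, -, -, -, -, -, -, -, hfr⟩ := hE0 n T P hP
  have hh := hfr A θ S0 hF
  obtain ⟨-, -, -, -, -, h6, -, -, -, -⟩ := hFRA n P.B P.e P.n0 A θ hh
  simp only [pow_two, nb]
  rw [dot hP, ← h6]
  exact Finset.sum_congr rfl fun b _ => by rw [pow_two]; rfl

/-! ### linear independence -/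

theorem ind (hP : P.Ax) (hE0 : Goal_E0) (hFRA : Goal_FRA) {A θ S0 : Ix n → Ix n → P.B}
    (hF : P.FH A θ S0) (a : Ix n → P.B) (b : Ix n → Ix n → P.B) (hb : ∀ k l, b k l = - b l k)
    (h : ∀ f : P.B, ∑ i, a i * Hh P A θ i f + ∑ k, ∑ l, b k l * P.V k l f = 0) :
    (∀ i, a i = nb P A i * ∑ j, nb P A j * a j) ∧ (∀ k l, b k l = 0) := by
  have hE := hE0 n T P hP
  obtain ⟨-, hen, -, -, -, -, -, -, hfr⟩ := hE
  have hh := hfr A θ S0 hF
  -- the horizontal part
  have hn0 : ∀ b j, Lo P A θ b (P.n0 j) = A b j - nv P A b * P.n0 j := by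
    intro b j
    have h1 : Lo P A θ b (P.n0 j) = ∑ i, A b i * P.e i (P.n0 j) :=
      Lo_XT A θ b ⟨fun k l => hP.Un k l j, fun k l => hP.Vn k l j⟩
    rw [h1]
    exact Fd_n0 hh b j
  set α : Ix n → P.B := fun c => ∑ i, a i * P.u i c with hα
  have h1 : ∀ j, ∑ c, α c * (A c j - nv P A c * P.n0 j) = 0 := by
    intro j
    have h2 := h (P.n0 j)
    simp only [H_apply, hn0, hP.Vn, mul_zero, Finset.sum_const_zero, add_zero] at h2
    rw [← h2, hα]
    simp only [Finset.sum_mul, Finset.mul_sum]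
    rw [Finset.sum_comm]
    exact Finset.sum_congr rfl fun i _ => Finset.sum_congr rfl fun c _ => by ring
  have h2 : ∀ c, α c = (∑ d, α d * nv P A d) * nv P A c := by
    intro c
    have h3 : ∑ j, (∑ d, α d * (A d j - nv P A d * P.n0 j)) * θ j c = 0 := by
      simp only [h1, zero_mul, Finset.sum_const_zero]
    have h4 : ∑ j, (∑ d, α d * (A d j - nv P A d * P.n0 j)) * θ j c =
        ∑ j, (∑ d, α d * A d j) * θ j c - (∑ d, α d * nv P A d) * ∑ j, P.n0 j * θ j c := by
      rw [Finset.mul_sum, ← Finset.sum_sub_distrib]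
      refine Finset.sum_congr rfl fun j _ => ?_
      have h5 : ∑ d, α d * (A d j - nv P A d * P.n0 j) =
          ∑ d, α d * A d j - (∑ d, α d * nv P A d) * P.n0 j := by
        rw [Finset.sum_mul, ← Finset.sum_sub_distrib]
        exact Finset.sum_congr rfl fun d _ => by ring
      rw [h5]
      ring
    rw [h4, inv_right A θ hF.At α c, nf_theta hh c] at h3
    exact sub_eq_zero.1 h3
  have h3 : ∀ i, a i = ∑ c, P.u i c * α c := by
    intro i
    have h4 : ∑ c, P.u i c * α c = ∑ j, a j * ∑ c, P.u i c * P.u j c := by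
      rw [hα]
      simp only [Finset.mul_sum]
      rw [Finset.sum_comm]
      exact Finset.sum_congr rfl fun j _ => Finset.sum_congr rfl fun c _ => by ring
    rw [h4]
    simp only [hP.uut]
    unfold BA.dl
    simp
  have h4 : ∑ j, nb P A j * a j = ∑ d, α d * nv P A d := by
    have h5 : ∑ j, nb P A j * a j = ∑ j, (∑ b, P.u j b * nv P A b) * (∑ c, P.u j c * α c) :=
      Finset.sum_congr rfl fun j _ => by rw [← h3 j]; rfl
    rw [h5, dot hP]
    exact Finset.sum_congr rfl fun d _ => mul_comm _ _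
  have ha : ∀ i, a i = nb P A i * ∑ j, nb P A j * a j := by
    intro i
    rw [h4, h3 i]
    unfold nb
    rw [Finset.sum_mul]
    refine Finset.sum_congr rfl fun c _ => ?_
    rw [h2 c]
    ring
  refine ⟨ha, ?_⟩
  -- the vertical part
  have h5 : ∀ f : P.B, ∑ k, ∑ l, b k l * P.V k l f = 0 := by
    intro f
    have h6 : ∑ i, a i * Hh P A θ i f = 0 := by
      have h7 : ∑ i, a i * Hh P A θ i f =
          (∑ j, nb P A j * a j) * ∑ i, nb P A i * Hh P A θ i f := by
        rw [Finset.mul_sum]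
        refine Finset.sum_congr rfl fun i _ => ?_
        have h8 : ∀ x y z w : P.B, x = y → x * z = y * z := fun x y z w hxy => by rw [hxy]
        rw [h8 _ _ _ 0 (ha i)]
        ring
      rw [h7, nuH hP hE0 hFRA hF, mul_zero]
    have h8 := h f
    rwa [h6, zero_add] at h8
  have h6 : ∀ c d, ∑ k, b k c * P.u k d = 0 := by
    intro c d
    have h7 := h5 (P.u c d)
    simp only [hP.Vu, mul_sub, Finset.sum_sub_distrib] at h7
    have e1 : ∑ k, ∑ l, b k l * (P.dl l c * P.u k d) = ∑ k, b k c * P.u k d := by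
      refine Finset.sum_congr rfl fun k _ => ?_
      unfold BA.dl
      simp
    have e2 : ∑ k, ∑ l, b k l * (P.dl k c * P.u l d) = - ∑ k, b k c * P.u k d := by
      rw [Finset.sum_comm, ← Finset.sum_neg_distrib]
      refine Finset.sum_congr rfl fun l _ => ?_
      unfold BA.dl
      simp only [ite_mul, one_mul, zero_mul, mul_ite, mul_zero, Finset.sum_ite_eq',
        Finset.mem_univ, if_true]
      rw [hb c l]
      ring
    rw [e1, e2, sub_neg_eq_add, ← two_smul ℝ] at h7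
    exact (smul_eq_zero_iff_right (two_ne_zero (α := ℝ))).mp h7
  intro e c
  have h7 : ∑ d, (∑ k, b k c * P.u k d) * P.u e d = b e c := by
    have h8 : ∑ d, (∑ k, b k c * P.u k d) * P.u e d = ∑ k, b k c * ∑ d, P.u k d * P.u e d := by
      simp only [Finset.mul_sum, Finset.sum_mul]
      rw [Finset.sum_comm]
      exact Finset.sum_congr rfl fun k _ => Finset.sum_congr rfl fun d _ => by ring
    rw [h8]
    simp only [hP.uut]
    unfold BA.dl
    simp
  rw [← h7]
  simp only [h6, zero_mul, Finset.sum_const_zero]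

end

/-- INSA. -/
theorem goal_INSA (hE0 : Goal_E0) (hFRA : Goal_FRA) (hINSB : Goal_INSB) : Goal_INSA := by
  intro n T P hP A θ S0 hF
  obtain ⟨hHH, -, hXG, hXR, hXn⟩ := hINSB n T P hP A θ S0 hF
  have hE := hE0 n T P hP
  obtain ⟨-, -, -, -, -, -, -, htt, hfr⟩ := hE
  have hh := hfr A θ S0 hF
  obtain ⟨-, -, h3, -, -, -, -, -, h9, h10⟩ := hFRA n P.B P.e P.n0 A θ hh
  have hG : ∀ a b c, P.XT (Gm P A θ a b c) := fun a b c => hXG a b c
  have hN : ∀ a, P.XT (nv P A a) := fun a => hXn a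
  have httH : ∀ a, Hh P A θ a P.tt = 0 := by
    intro a
    rw [H_apply']
    simp only [hP.tt_L, hP.tt_U, mul_zero, Finset.sum_const_zero, add_zero]
  have hGd : ∀ b p q, Gd P A θ S0 b p q = - Gd P A θ S0 b q p := by
    intro b p q
    have hG' : ∀ a b c, Gm P A θ a b c = - Gm P A θ a c b := fun a b c => h3 a b c
    unfold Gd
    rw [hG' b p q, map_neg]
    have h4 : ∑ c, S0 b c * Gm P A θ c p q = - ∑ c, S0 b c * Gm P A θ c q p := by
      rw [← Finset.sum_neg_distrib]
      refine Finset.sum_congr rfl fun c _ => ?_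
      rw [hG' c p q]
      ring
    rw [h4]
    ring
  exact
    { ext := hP.ext
      cont := hP.cont
      tt_ev := hP.tt_ev
      tt_D := hP.tt_D
      tt_H := httH
      tt_V := hP.tt_V
      time := hP.time
      min1 := fun f z t hm a => min1 hP A θ f z t hm a
      comp := hP.comp
      chain := fun φ O hO hφ f g hf hg z t => chainH hP A θ φ O hO hφ f g hf hg z t
      ind := fun a b hb hab => ind hP hE0 hFRA hF a b hb hab
      Vanti := hP.Vanti
      VV := hP.VV
      VH := fun k l a f => VH hP hE0 hF.XA hG k l a f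
      R12 := by
        intro a b c d
        change ∑ i, ∑ j, ∑ k, ∑ l, P.u a i * P.u b j * P.u c k * P.u d l *
          FR.R P.e P.n0 A θ i j k l = - ∑ i, ∑ j, ∑ k, ∑ l, P.u b i * P.u a j * P.u c k * P.u d l *
          FR.R P.e P.n0 A θ i j k l
        rw [Finset.sum_comm, ← Finset.sum_neg_distrib]
        refine Finset.sum_congr rfl fun j _ => ?_
        rw [← Finset.sum_neg_distrib]
        refine Finset.sum_congr rfl fun i _ => ?_
        rw [← Finset.sum_neg_distrib]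
        refine Finset.sum_congr rfl fun k _ => ?_
        rw [← Finset.sum_neg_distrib]
        refine Finset.sum_congr rfl fun l _ => ?_
        rw [h9 i j k l]
        ring
      R34 := by
        intro a b c d
        change ∑ i, ∑ j, ∑ k, ∑ l, P.u a i * P.u b j * P.u c k * P.u d l *
          FR.R P.e P.n0 A θ i j k l = - ∑ i, ∑ j, ∑ k, ∑ l, P.u a i * P.u b j * P.u d k * P.u c l *
          FR.R P.e P.n0 A θ i j k l
        rw [← Finset.sum_neg_distrib]
        refine Finset.sum_congr rfl fun i _ => ?_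
        rw [← Finset.sum_neg_distrib]
        refine Finset.sum_congr rfl fun j _ => ?_
        rw [Finset.sum_comm, ← Finset.sum_neg_distrib]
        refine Finset.sum_congr rfl fun l _ => ?_
        rw [← Finset.sum_neg_distrib]
        refine Finset.sum_congr rfl fun k _ => ?_
        rw [h10 i j k l]
        ring
      HH := hHH
      DV := hP.DV
      DH := by
        refine ⟨fun a k l => ∑ p, ∑ q, (∑ b, P.u a b * Gd P A θ S0 b p q) *
          (P.u k p * P.u l q), fun a c d => ?_, fun a f => DH hP hE0 hF a f⟩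
        change ∑ p, ∑ q, (∑ b, P.u a b * Gd P A θ S0 b p q) * (P.u c p * P.u d q) =
          - ∑ p, ∑ q, (∑ b, P.u a b * Gd P A θ S0 b p q) * (P.u d p * P.u c q)
        rw [Finset.sum_comm, ← Finset.sum_neg_distrib]
        refine Finset.sum_congr rfl fun q _ => ?_
        rw [← Finset.sum_neg_distrib]
        refine Finset.sum_congr rfl fun p _ => ?_
        have h4 : ∑ b, P.u a b * Gd P A θ S0 b p q = - ∑ b, P.u a b * Gd P A θ S0 b q p := by
          rw [← Finset.sum_neg_distrib]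
          refine Finset.sum_congr rfl fun b _ => ?_
          rw [hGd b p q]
          ring
        rw [h4]
        ring
      Ssymm := fun i j => Ssymm hF i j
      nunu := nunu hP hE0 hFRA hF
      Hnu := fun a b => Hnu hP hE0 hFRA hF hN a b
      Vnu := fun k l a => Vnu hP hN k l a
      Dnu := fun a => Dnu hP hF a
      nuH := fun f => nuH hP hE0 hFRA hF f
      nuS := fun a => nuS hP hF a }

end Pool.Agent.Helper39.RFn.Insa

namespace Pool.Agent.Helper47.RFn

theorem goal_INSA (hE0 : Goal_E0) (hFRA : Goal_FRA) (hINSB : Goal_INSB) : Goal_INSA :=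
  Pool.Agent.Helper39.RFn.Insa.goal_INSA hE0 hFRA hINSB

end Pool.Agent.Helper47.RFn
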