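import Pool.Agent.Helper19.RFn.GoalsM

/-!
Project RFn, packet M-TRC: a function that is 1-Lipschitz only on `{h < R1}`.
-/

set_option autoImplicit false

open Finset Pool.Agent.Helper47.RFn Pool.Agent.Helper73.RFn Pool.Agent.Helper19.RFn

namespace Pool.Agent.Helper39.RFn.Trc

/-! ### the truncation -/

/-- derivative of the truncation -/
noncomputable def psi (L ε : ℝ) (s : ℝ) : ℝ := 1 - Real.smoothTransition ((s - L + ε) / ε)

/-- the truncation -/
noncomputable def phi (L ε : ℝ) (s : ℝ) : ℝ := L - ε + ∫ r in (L - ε)..s, psi L ε r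

variable {L ε : ℝ}

lemma psi_contDiff (hε : 0 < ε) : ContDiff ℝ oo (psi L ε) := by
  unfold psi
  exact contDiff_const.sub (Real.smoothTransition.contDiff.comp
    (((contDiff_id.sub contDiff_const).add contDiff_const).div_const ε))

lemma psi_continuous (hε : 0 < ε) : Continuous (psi L ε) := (psi_contDiff hε).continuous

lemma psi_nonneg (s : ℝ) : 0 ≤ psi L ε s := sub_nonneg.2 (Real.smoothTransition.le_one _)

lemma psi_le_one (s : ℝ) : psi L ε s ≤ 1 := by
  have := Real.smoothTransition.nonneg ((s - L + ε) / ε)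
  unfold psi
  linarith

lemma psi_one (hε : 0 < ε) {s : ℝ} (hs : s ≤ L - ε) : psi L ε s = 1 := by
  unfold psi
  rw [Real.smoothTransition.zero_of_nonpos, sub_zero]
  exact div_nonpos_of_nonpos_of_nonneg (by linarith) hε.le

lemma psi_zero (hε : 0 < ε) {s : ℝ} (hs : L ≤ s) : psi L ε s = 0 := by
  unfold psi
  rw [Real.smoothTransition.one_of_one_le, sub_self]
  rw [le_div_iff₀ hε]
  linarith

lemma phi_hasDerivAt (hε : 0 < ε) (s : ℝ) : HasDerivAt (phi L ε) (psi L ε s) s := by
  have h := intervalIntegral.integral_hasDerivAt_right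
    ((psi_continuous (L := L) hε).intervalIntegrable (L - ε) s)
    ((psi_continuous hε).stronglyMeasurableAtFilter _ _) (psi_continuous hε).continuousAt
  exact h.const_add (L - ε)

lemma phi_contDiff (hε : 0 < ε) : ContDiff ℝ oo (phi L ε) := by
  refine contDiff_infty_iff_deriv.2 ⟨fun s => (phi_hasDerivAt hε s).differentiableAt, ?_⟩
  have e : deriv (phi L ε) = psi L ε := funext fun s => (phi_hasDerivAt hε s).deriv
  rw [e]
  exact psi_contDiff hε

lemma phi_le (hε : 0 < ε) (s : ℝ) : phi L ε s ≤ s := by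
  unfold phi
  rcases le_total s (L - ε) with h | h
  · have e : ∫ r in (L - ε)..s, psi L ε r = ∫ _r in (L - ε)..s, (1 : ℝ) := by
      refine intervalIntegral.integral_congr fun r hr => ?_
      rw [Set.uIcc_of_ge h] at hr
      exact psi_one hε hr.2
    rw [e]
    simp
  · have e : ∫ r in (L - ε)..s, psi L ε r ≤ ∫ _r in (L - ε)..s, (1 : ℝ) :=
      intervalIntegral.integral_mono_on h ((psi_continuous hε).intervalIntegrable _ _)
        (by simp) fun r _ => psi_le_one r
    simp at e
    linarith

lemma phi_L (hε : 0 < ε) : L - ε ≤ phi L ε L := by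
  have e : 0 ≤ ∫ r in (L - ε)..L, psi L ε r :=
    intervalIntegral.integral_nonneg (by linarith) fun r _ => psi_nonneg r
  unfold phi
  linarith

lemma phi_const (hε : 0 < ε) {s : ℝ} (hs : L ≤ s) : phi L ε s = phi L ε L := by
  unfold phi
  rw [← intervalIntegral.integral_add_adjacent_intervals (a := L - ε) (b := L) (c := s)
    ((psi_continuous hε).intervalIntegrable _ _) ((psi_continuous hε).intervalIntegrable _ _)]
  have e : ∫ r in L..s, psi L ε r = ∫ _r in L..s, (0 : ℝ) := by
    refine intervalIntegral.integral_congr fun r hr => ?_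
    rw [Set.uIcc_of_le hs] at hr
    exact psi_zero hε hr.1
  rw [e]
  simp

/-! ### the cutoff -/

/-- cutoff -/
noncomputable def chi (R R2 : ℝ) (s : ℝ) : ℝ := Real.smoothTransition ((R2 - s) / (R2 - R))

variable {R R2 : ℝ}

lemma chi_contDiff : ContDiff ℝ oo (chi R R2) := by
  unfold chi
  exact Real.smoothTransition.contDiff.comp ((contDiff_const.sub contDiff_id).div_const _)

lemma chi_one (h : R < R2) {s : ℝ} (hs : s ≤ R) : chi R R2 s = 1 := by
  unfold chi
  apply Real.smoothTransition.one_of_one_le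
  rw [le_div_iff₀ (by linarith)]
  linarith

lemma chi_zero (h : R < R2) {s : ℝ} (hs : R2 ≤ s) : chi R R2 s = 0 := by
  unfold chi
  apply Real.smoothTransition.zero_of_nonpos
  exact div_nonpos_of_nonpos_of_nonneg (by linarith) (by linarith)

lemma chi_hasDerivAt (s : ℝ) : HasDerivAt (chi R R2) (deriv (chi R R2) s) s :=
  (chi_contDiff.differentiable (by simp)).differentiableAt.hasDerivAt

lemma chi_deriv_left (h : R < R2) {s : ℝ} (hs : s < R) : deriv (chi R R2) s = 0 := by
  have e : chi R R2 =ᶠ[nhds s] fun _ => 1 := by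
    filter_upwards [gt_mem_nhds hs] with r hr
    exact chi_one h hr.le
  rw [e.deriv_eq]
  simp

lemma chi_deriv_right (h : R < R2) {s : ℝ} (hs : R2 < s) : deriv (chi R R2) s = 0 := by
  have e : chi R R2 =ᶠ[nhds s] fun _ => 0 := by
    filter_upwards [lt_mem_nhds hs] with r hr
    exact chi_zero h hr.le
  rw [e.deriv_eq]
  simp

/-- PACKET M-TRC. -/
theorem trc : LipStmt → Goal_C1 → Goal_C2 → TrcStmt := by
  intro hLip hC1 hC2 n G h w R R1 L p hn hG hh hw hR hgr hL hp hhp y hy hhy
  obtain ⟨c1, c2, c3, c4, c5, c6, c7, -⟩ := hC1 n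
  obtain ⟨d1, d2, d3, d4, d5, d6, d7, d8⟩ := hC2 n
  refine le_of_forall_pos_le_add fun ε hε => ?_
  set R2 : ℝ := (R + R1) / 2 with hR2
  have h2 : R < R2 := by rw [hR2]; linarith
  have h3 : R2 < R1 := by rw [hR2]; linarith
  have sphi : Sm (fun x => phi L ε (w x)) :=
    c7 w (phi L ε) Set.univ isOpen_univ (phi_contDiff hε).contDiffOn hw fun _ => trivial
  have schi : Sm (fun x => chi R R2 (h x)) :=
    c7 h (chi R R2) Set.univ isOpen_univ chi_contDiff.contDiffOn hh fun _ => trivial
  have sd : Sm (fun x => phi L ε (w x) - phi L ε L) := c3 _ _ sphi (c1 _)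
  have sm : Sm (fun x => chi R R2 (h x) * (phi L ε (w x) - phi L ε L)) := c4 _ _ schi sd
  have sv : Sm (fun x => phi L ε L + chi R R2 (h x) * (phi L ε (w x) - phi L ε L)) :=
    c2 _ _ (c1 _) sm
  have hed : ∀ (i : Fin (n + 1)) (x : EE n), x ≠ 0 →
      ed i (fun x => phi L ε L + chi R R2 (h x) * (phi L ε (w x) - phi L ε L)) x =
        deriv (chi R R2) (h x) * ed i h x * (phi L ε (w x) - phi L ε L) +
          chi R R2 (h x) * (psi L ε (w x) * ed i w x) := by
    intro i x hx
    rw [d2 i _ _ x (c1 _) sm, d1, d5 i _ _ x schi sd, d3 i _ _ x sphi (c1 _), d1,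
      d8 i h (chi R R2) _ x hh hx (chi_hasDerivAt _),
      d8 i w (phi L ε) _ x hw hx (phi_hasDerivAt hε _)]
    ring
  have key := hLip n G (fun x => phi L ε L + chi R R2 (h x) * (phi L ε (w x) - phi L ε L)) 1
    hn hG sv zero_le_one (by
      intro x hx
      simp only [hed _ x hx]
      rcases lt_or_ge (h x) R1 with hx1 | hx1
      · have e1 : deriv (chi R R2) (h x) * (phi L ε (w x) - phi L ε L) = 0 := by
          rcases lt_or_ge (h x) R with hx2 | hx2
          · rw [chi_deriv_left h2 hx2, zero_mul]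
          · rw [phi_const hε (hL x hx hx2 hx1), sub_self, mul_zero]
        have e2 : ∀ i, deriv (chi R R2) (h x) * ed i h x * (phi L ε (w x) - phi L ε L) +
            chi R R2 (h x) * (psi L ε (w x) * ed i w x) =
            (chi R R2 (h x) * psi L ε (w x)) * ed i w x := by
          intro i
          linear_combination (ed i h x) * e1
        simp only [e2]
        have e3 : ∑ i, ∑ j, (G x)⁻¹ i j * ((chi R R2 (h x) * psi L ε (w x)) * ed i w x) *
            ((chi R R2 (h x) * psi L ε (w x)) * ed j w x) =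
            (chi R R2 (h x) * psi L ε (w x)) ^ 2 *
              ∑ i, ∑ j, (G x)⁻¹ i j * ed i w x * ed j w x := by
          rw [mul_sum]
          refine sum_congr rfl fun i _ => ?_
          rw [mul_sum]
          refine sum_congr rfl fun j _ => ?_
          ring
        rw [e3]
        have hQ := hgr x hx hx1
        have a0 : 0 ≤ chi R R2 (h x) := Real.smoothTransition.nonneg _
        have a1 : chi R R2 (h x) ≤ 1 := Real.smoothTransition.le_one _
        have b0 := psi_nonneg (L := L) (ε := ε) (w x)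
        have b1 := psi_le_one (L := L) (ε := ε) (w x)
        have m0 : 0 ≤ chi R R2 (h x) * psi L ε (w x) := mul_nonneg a0 b0
        have m1 : chi R R2 (h x) * psi L ε (w x) ≤ 1 := mul_le_one₀ a1 b0 b1
        have m2 : (chi R R2 (h x) * psi L ε (w x)) ^ 2 ≤ 1 := pow_le_one₀ m0 m1
        have m3 : 0 ≤ (chi R R2 (h x) * psi L ε (w x)) ^ 2 := sq_nonneg _
        nlinarith
      · have e1 : deriv (chi R R2) (h x) = 0 := chi_deriv_right h2 (by linarith)
        have e2 : chi R R2 (h x) = 0 := chi_zero h2 (by linarith)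
        simp [e1, e2]) p y hp hy
  have e4 : phi L ε L + chi R R2 (h y) * (phi L ε (w y) - phi L ε L) = phi L ε L := by
    have hy0 : y ≠ 0 := by
      intro h0
      rw [h0, norm_zero] at hy
      exact zero_ne_one hy
    rcases lt_or_ge (h y) R1 with hy1 | hy1
    · rw [phi_const hε (hL y hy0 hhy hy1)]
      ring
    · rw [chi_zero h2 (by linarith)]
      ring
  simp only [e4, chi_one h2 hhp.le] at key
  have e5 := (abs_le.1 key).1
  have e6 := phi_le (L := L) hε (w p)
  have e7 := phi_L (L := L) hε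
  linarith

end Pool.Agent.Helper39.RFn.Trc
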